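import Mathlib

set_option autoImplicit false

/-! # Counting independent sets, and a vertex set without large independent sets

`count`: in a graph in which every set `U` of more than `R` vertices has a vertex with at least
`|U| / x` neighbours in `U`, there are few independent sets (Kleitman and Winston).
`exists_part`: if a family of `M`-sets is small enough, then there is a large set of vertices which
contains no member of the family. -/

open Finset

namespace Pool.Agent.KS6_40.SA

open Classical in
/-- the independent subsets of `U` with `M` elements -/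
noncomputable def Ind {V : Type*} (A : V → V → Prop) (U : Finset V) (M : ℕ) : Finset (Finset V) :=
  (U.powersetCard M).filter (fun I => ∀ a ∈ I, ∀ b ∈ I, ¬ A a b)

theorem mem_Ind {V : Type*} {A : V → V → Prop} {U : Finset V} {M : ℕ} {I : Finset V} :
    I ∈ Ind A U M ↔ I ⊆ U ∧ I.card = M ∧ ∀ a ∈ I, ∀ b ∈ I, ¬ A a b := by
  classical
  rw [Ind, mem_filter, mem_powersetCard]
  tauto

open Classical in
theorem Ind_rec {V : Type*} (A : V → V → Prop) (U : Finset V) (M : ℕ) (v : V) :
    (Ind A U (M + 1)).card ≤ (Ind A (U.erase v) (M + 1)).card +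
      (Ind A ((U.erase v).filter (fun w => ¬ A v w)) M).card := by
  have h1 : ((Ind A U (M + 1)).filter (fun I => v ∉ I)).card ≤ (Ind A (U.erase v) (M + 1)).card := by
    apply card_le_card
    intro I hI
    rw [mem_filter, mem_Ind] at hI
    obtain ⟨⟨h1, h2, h3⟩, h4⟩ := hI
    rw [mem_Ind]
    refine ⟨fun a ha => ?_, h2, h3⟩
    rw [mem_erase]
    exact ⟨fun h => h4 (h ▸ ha), h1 ha⟩
  have h2 : ((Ind A U (M + 1)).filter (fun I => v ∈ I)).card ≤
      (Ind A ((U.erase v).filter (fun w => ¬ A v w)) M).card := by
    apply card_le_card_of_injOn (fun I => I.erase v)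
    · intro I hI
      rw [mem_coe, mem_filter, mem_Ind] at hI
      obtain ⟨⟨h1, h2, h3⟩, h4⟩ := hI
      rw [mem_coe, mem_Ind]
      refine ⟨fun a ha => ?_, ?_, fun a ha b hb => h3 a (mem_of_mem_erase ha) b (mem_of_mem_erase hb)⟩
      · rw [mem_erase] at ha
        rw [mem_filter, mem_erase]
        exact ⟨⟨ha.1, h1 ha.2⟩, h3 v h4 a ha.2⟩
      · rw [card_erase_of_mem h4, h2]
        omega
    · intro I hI J hJ hIJ
      rw [mem_coe, mem_filter] at hI hJ
      have e1 := insert_erase hI.2
      have e2 := insert_erase hJ.2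
      simp only at hIJ
      rw [← e1, ← e2, hIJ]
  have h3 := card_filter_add_card_filter_not (s := Ind A U (M + 1)) (fun I => v ∈ I)
  omega

open Classical in
/-- few independent sets -/
theorem count {V : Type*} (A : V → V → Prop) (hirr : ∀ v, ¬ A v v) (W : Finset V) (R x : ℕ)
    (hx : 1 ≤ x)
    (hdeg : ∀ U ⊆ W, R < U.card → ∃ v ∈ U, U.card ≤ x * (U.filter (fun w => A v w)).card) :
    ∀ (n : ℕ) (U : Finset V), U.card = n → U ⊆ W → ∀ k M : ℕ, U.card * (x - 1) ^ k ≤ R * x ^ k →
      (Ind A U M).card ≤ ∑ t ∈ range (k + 1), n.choose t * R.choose (M - t) := by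
  intro n
  induction n using Nat.strong_induction_on with
  | _ n ih =>
    intro U hUn hUW k M hk
    by_cases hR : U.card ≤ R
    · have h1 : (Ind A U M).card ≤ R.choose M := by
        refine (card_le_card (filter_subset _ _)).trans ?_
        rw [card_powersetCard]
        exact Nat.choose_le_choose M hR
      refine h1.trans ?_
      have h2 := single_le_sum (f := fun t => n.choose t * R.choose (M - t))
        (s := range (k + 1)) (fun i _ => Nat.zero_le _) (mem_range.2 (Nat.succ_pos k))
      simpa using h2
    · rcases Nat.eq_zero_or_pos k with hk0 | hkpos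
      · subst hk0
        simp at hk
        omega
      obtain ⟨k', rfl⟩ : ∃ k', k = k' + 1 := ⟨k - 1, by omega⟩
      rcases Nat.eq_zero_or_pos M with hM0 | hMpos
      · subst hM0
        have h1 : (Ind A U 0).card ≤ 1 := by
          refine (card_le_card (filter_subset _ _)).trans ?_
          simp
        refine h1.trans ?_
        have h2 := single_le_sum (f := fun t => n.choose t * R.choose (0 - t))
          (s := range (k' + 1 + 1)) (fun i _ => Nat.zero_le _) (mem_range.2 (Nat.succ_pos _))
        simpa using h2
      obtain ⟨M', rfl⟩ : ∃ M', M = M' + 1 := ⟨M - 1, by omega⟩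
      obtain ⟨v, hv, hd⟩ := hdeg U hUW (by omega)
      have hc1 : (U.erase v).card = n - 1 := by rw [card_erase_of_mem hv, hUn]
      have hnpos : 1 ≤ n := by
        rw [← hUn]
        exact card_pos.2 ⟨v, hv⟩
      set U2 := (U.erase v).filter (fun w => ¬ A v w) with hU2
      have hc2 : U2.card + (U.filter (fun w => A v w)).card ≤ n - 1 := by
        rw [← hc1]
        have h3 : ((U.erase v).filter (fun w => A v w)).card + U2.card = (U.erase v).card := by
          rw [hU2]
          convert card_filter_add_card_filter_not (s := U.erase v) (fun w => A v w) using 3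
        have h4 : U.filter (fun w => A v w) = (U.erase v).filter (fun w => A v w) := by
          ext w
          simp only [mem_filter, mem_erase]
          constructor
          · rintro ⟨h1, h2⟩
            exact ⟨⟨fun h => hirr v (h ▸ h2), h1⟩, h2⟩
          · rintro ⟨⟨_, h1⟩, h2⟩
            exact ⟨h1, h2⟩
        rw [h4]
        omega
      set d := (U.filter (fun w => A v w)).card with hdd
      have hk1 : (U.erase v).card * (x - 1) ^ (k' + 1) ≤ R * x ^ (k' + 1) := by
        refine le_trans (Nat.mul_le_mul_right _ ?_) hk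
        rw [hc1, hUn]
        omega
      have hk2 : U2.card * (x - 1) ^ k' ≤ R * x ^ k' := by
        have h5 : x * U2.card ≤ (x - 1) * U.card := by
          obtain ⟨y, rfl⟩ : ∃ y, x = y + 1 := ⟨x - 1, by omega⟩
          rw [Nat.add_sub_cancel]
          have h6 : U2.card + d ≤ U.card := by omega
          nlinarith
        have h7 : x * (U2.card * (x - 1) ^ k') ≤ x * (R * x ^ k') := by
          calc x * (U2.card * (x - 1) ^ k') = (x * U2.card) * (x - 1) ^ k' := by ring
            _ ≤ ((x - 1) * U.card) * (x - 1) ^ k' := Nat.mul_le_mul_right _ h5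
            _ = U.card * (x - 1) ^ (k' + 1) := by ring
            _ ≤ R * x ^ (k' + 1) := hk
            _ = x * (R * x ^ k') := by ring
        exact Nat.le_of_mul_le_mul_left h7 hx
      have i1 := ih (n - 1) (by omega) (U.erase v) hc1 ((erase_subset _ _).trans hUW) (k' + 1)
        (M' + 1) hk1
      have i2 := ih U2.card (by omega) U2 rfl
        ((filter_subset _ _).trans ((erase_subset _ _).trans hUW)) k' M' hk2
      have i3 : ∑ t ∈ range (k' + 1), U2.card.choose t * R.choose (M' - t) ≤
          ∑ t ∈ range (k' + 1), (n - 1).choose t * R.choose (M' + 1 - (t + 1)) := by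
        apply sum_le_sum
        intro t _
        have h8 : M' + 1 - (t + 1) = M' - t := by omega
        rw [h8]
        exact Nat.mul_le_mul_right _ (Nat.choose_le_choose t (by omega))
      have i4 := Ind_rec A U M' v
      obtain ⟨n', rfl⟩ : ∃ n', n = n' + 1 := ⟨n - 1, by omega⟩
      rw [Nat.add_sub_cancel] at i1 i3
      have i5 : ∑ t ∈ range (k' + 1 + 1), n'.choose t * R.choose (M' + 1 - t) +
          ∑ t ∈ range (k' + 1), n'.choose t * R.choose (M' + 1 - (t + 1)) =
          ∑ t ∈ range (k' + 1 + 1), (n' + 1).choose t * R.choose (M' + 1 - t) := by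
        rw [sum_range_succ' (fun t => n'.choose t * R.choose (M' + 1 - t)) (k' + 1),
          sum_range_succ' (fun t => (n' + 1).choose t * R.choose (M' + 1 - t)) (k' + 1)]
        simp only [Nat.choose_zero_right, one_mul]
        rw [add_right_comm, ← sum_add_distrib]
        congr 1
        apply sum_congr rfl
        intro t _
        rw [Nat.choose_succ_succ]
        ring
      calc (Ind A U (M' + 1)).card ≤ _ := i4
        _ ≤ _ := Nat.add_le_add i1 (i2.trans i3)
        _ = _ := i5

/-- a large part of `W` containing no member of a small family -/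
theorem exists_part {V : Type*} (W : Finset V) (F : Finset (Finset V)) (M r : ℕ)
    (hM : 1 ≤ M) (hr : 1 ≤ r) (hF : ∀ I ∈ F, I ⊆ W ∧ I.card = M) (hcard : F.card * r < r ^ M) :
    ∃ Z ⊆ W, W.card ≤ r * Z.card ∧ ∀ I ∈ F, ¬ I ⊆ Z := by
  classical
  -- a colouring without monochromatic member
  have key : ∃ c : W → Fin r, ∀ I ∈ F, ¬ ∃ i : Fin r, ∀ w : W, (w : V) ∈ I → c w = i := by
    by_contra hcon
    push Not at hcon
    have h1 : (univ : Finset (W → Fin r)) ⊆ F.biUnion (fun I =>
        univ.filter (fun c : W → Fin r => ∃ i : Fin r, ∀ w : W, (w : V) ∈ I → c w = i)) := by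
      intro c _
      obtain ⟨I, hI, i, hi⟩ := hcon c
      rw [mem_biUnion]
      exact ⟨I, hI, mem_filter.2 ⟨mem_univ _, i, hi⟩⟩
    have h2 : ∀ I ∈ F, (univ.filter (fun c : W → Fin r =>
        ∃ i : Fin r, ∀ w : W, (w : V) ∈ I → c w = i)).card ≤ r * r ^ (W.card - M) := by
      intro I hI
      obtain ⟨hIW, hIM⟩ := hF I hI
      have h3 : (univ.filter (fun c : W → Fin r =>
          ∃ i : Fin r, ∀ w : W, (w : V) ∈ I → c w = i)).card ≤
          (univ : Finset (Fin r × ({w : V // w ∈ W \ I} → Fin r))).card := by
        have hne : (univ : Finset (W → Fin r)).Nonempty :=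
          ⟨fun _ => ⟨0, hr⟩, mem_univ _⟩
        obtain ⟨w0, hw0⟩ : I.Nonempty := by
          rw [← card_pos]
          omega
        apply card_le_card_of_injOn (fun c : W → Fin r =>
          (c ⟨w0, hIW hw0⟩, fun w : {w : V // w ∈ W \ I} => c ⟨w.1, (mem_sdiff.1 w.2).1⟩))
        · intro c _
          exact mem_coe.2 (mem_univ _)
        · intro c hc c' hc' hcc
          rw [mem_coe, mem_filter] at hc hc'
          obtain ⟨_, i, hi⟩ := hc
          obtain ⟨_, i', hi'⟩ := hc'
          simp only [Prod.mk.injEq] at hcc
          obtain ⟨e1, e2⟩ := hcc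
          funext w
          by_cases hw : (w : V) ∈ I
          · rw [hi w hw, hi' w hw, ← hi ⟨w0, hIW hw0⟩ hw0, ← hi' ⟨w0, hIW hw0⟩ hw0, e1]
          · exact congrFun e2 ⟨w.1, mem_sdiff.2 ⟨w.2, hw⟩⟩
      refine h3.trans ?_
      rw [card_univ, Fintype.card_prod, Fintype.card_fun, Fintype.card_fin, Fintype.card_coe,
        card_sdiff_of_subset hIW, hIM]
    have h4 := card_le_card h1
    have h5 := h4.trans (card_biUnion_le.trans (sum_le_sum h2))
    rw [card_univ, Fintype.card_fun, Fintype.card_fin, Fintype.card_coe, sum_const, smul_eq_mul]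
      at h5
    by_cases hFe : F.Nonempty
    · obtain ⟨I, hI⟩ := hFe
      obtain ⟨hIW, hIM⟩ := hF I hI
      have h6 : M ≤ W.card := by
        rw [← hIM]
        exact card_le_card hIW
      have h7 : r ^ W.card = r ^ M * r ^ (W.card - M) := by
        rw [← pow_add]
        congr 1
        omega
      rw [h7, ← mul_assoc] at h5
      have h8 : 0 < r ^ (W.card - M) := by positivity
      have h9 := Nat.le_of_mul_le_mul_right h5 h8
      omega
    · rw [not_nonempty_iff_eq_empty] at hFe
      rw [hFe] at h5
      have h8 : 0 < r ^ W.card := by positivity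
      simp at h5
      omega
  obtain ⟨c, hc⟩ := key
  -- a large class
  obtain ⟨i, hi⟩ : ∃ i : Fin r, W.card ≤ r * ((univ : Finset W).filter (fun w => c w = i)).card := by
    by_contra hcon
    push Not at hcon
    have h1 : (univ : Finset W).card = ∑ i : Fin r, (univ.filter (fun w => c w = i)).card :=
      card_eq_sum_card_fiberwise (fun w _ => mem_coe.2 (mem_univ (c w)))
    have h2 : r * W.card = ∑ i : Fin r, r * (univ.filter (fun w : W => c w = i)).card := by
      rw [← mul_sum, ← h1, card_univ, Fintype.card_coe]
    have h3 : ∑ i : Fin r, r * (univ.filter (fun w : W => c w = i)).card < ∑ _i : Fin r, W.card := by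
      apply sum_lt_sum_of_nonempty
      · exact ⟨⟨0, hr⟩, mem_univ _⟩
      · intro i _
        exact hcon i
    rw [← h2, sum_const, card_univ, Fintype.card_fin, smul_eq_mul] at h3
    omega
  refine ⟨((univ : Finset W).filter (fun w => c w = i)).map (Function.Embedding.subtype _), ?_, ?_, ?_⟩
  · intro w hw
    rw [mem_map] at hw
    obtain ⟨w', _, rfl⟩ := hw
    exact w'.2
  · rw [card_map]
    exact hi
  · intro I hI hsub
    apply hc I hI
    refine ⟨i, fun w hw => ?_⟩
    have h1 := hsub hw
    rw [mem_map] at h1
    obtain ⟨w', hw', e⟩ := h1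
    have h2 : w' = w := Subtype.ext e
    rw [h2, mem_filter] at hw'
    exact hw'.2

end Pool.Agent.KS6_40.SA
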