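import Pool.Graph.R_seed8.Results.MP_8f4311_co.PlanarRamsey

set_option autoImplicit false

/-! # Supersaturation for the graph `Far` -/

open Finset

namespace Pool.Agent.KS6_40.SA

open Pool.Agent.Results.MP_8f4311_co.PlanarRamsey

/-- the part of `s` outside the window `[j, j + D]` -/
def outw (D j : ℕ) (s : Finset ℕ) : Finset ℕ := s \ Icc j (j + D)

/-- the side of `s`: the bit `j` -/
def side (j : ℕ) (s : Finset ℕ) : Bool := decide (j ∈ s)

/-- whether the bits `j` and `j + D` differ -/
def par (D j : ℕ) (s : Finset ℕ) : Bool := xor (decide (j ∈ s)) (decide (j + D ∈ s))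

/-- the cells -/
def cls (U : Finset (Finset ℕ)) (D : ℕ) (κ : (_ : ℕ) × (Finset ℕ × Bool)) (b : Bool) :
    Finset (Finset ℕ) :=
  U.filter (fun s => (outw D κ.1 s = κ.2.1 ∧ par D κ.1 s = κ.2.2) ∧ side κ.1 s = b)

theorem far_of_cls {U : Finset (Finset ℕ)} {D : ℕ} {κ : (_ : ℕ) × (Finset ℕ × Bool)} {b : Bool}
    {s t : Finset ℕ} (hs : s ∈ cls U D κ b) (ht : t ∈ cls U D κ (!b)) : Far D s t := by
  obtain ⟨j, c, r⟩ := κ
  rw [cls, mem_filter] at hs ht
  obtain ⟨_, ⟨hs1, hs2⟩, hs3⟩ := hs
  obtain ⟨_, ⟨ht1, ht2⟩, ht3⟩ := ht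
  simp only at hs1 hs2 hs3 ht1 ht2 ht3
  have hout : ∀ i, ¬ (j ≤ i ∧ i ≤ j + D) → (i ∈ s ↔ i ∈ t) := by
    intro i hi
    have h1 : i ∈ outw D j s ↔ i ∈ outw D j t := by rw [hs1, ht1]
    simp only [outw, mem_sdiff, mem_Icc] at h1
    tauto
  have hb : ¬ (j ∈ s ↔ j ∈ t) := by
    intro h
    rw [side] at hs3 ht3
    have : decide (j ∈ s) = decide (j ∈ t) := by rw [decide_eq_decide]; exact h
    rw [hs3, ht3] at this
    cases b <;> simp at this
  have hp : ¬ (j + D ∈ s ↔ j + D ∈ t) := by
    intro h
    apply hb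
    rw [par] at hs2 ht2
    have h1 : decide (j + D ∈ s) = decide (j + D ∈ t) := by rw [decide_eq_decide]; exact h
    have h2 : xor (decide (j ∈ s)) (decide (j + D ∈ s)) =
      xor (decide (j ∈ t)) (decide (j + D ∈ t)) := by rw [hs2, ht2]
    rw [h1] at h2
    have h3 := Bool.xor_right_inj.1 (by simpa [Bool.xor_comm] using h2 :
      xor (decide (j + D ∈ t)) (decide (j ∈ s)) = xor (decide (j + D ∈ t)) (decide (j ∈ t)))
    rw [decide_eq_decide] at h3
    exact h3
  exact ⟨j, ⟨hp, fun i hi => hout i (by omega)⟩, hb, fun i hi => hout i (by omega)⟩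

/-- the set of keys of the cells -/
def keys (m : ℕ) : Finset ((_ : ℕ) × (Finset ℕ × Bool)) :=
  (range (2 * m)).sigma (fun j =>
    ((range (2 * (2 * m)) \ Icc j (j + 2 * m)).powerset) ×ˢ (univ : Finset Bool))

theorem card_keys (m : ℕ) : (keys m).card = 2 * m * 4 ^ m := by
  rw [keys, card_sigma]
  have h : ∀ j ∈ range (2 * m), (((range (2 * (2 * m)) \ Icc j (j + 2 * m)).powerset) ×ˢ
      (univ : Finset Bool)).card = 4 ^ m := by
    intro j hj
    rw [mem_range] at hj
    rw [card_product, card_powerset, card_univ, Fintype.card_bool, card_sdiff_of_subset,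
      card_range, Nat.card_Icc]
    · have h1 : 2 * (2 * m) - (j + 2 * m + 1 - j) = 2 * m - 1 := by omega
      rw [h1, ← pow_succ]
      have h2 : 2 * m - 1 + 1 = 2 * m := by omega
      rw [h2, pow_mul]
      norm_num
    · intro i hi
      rw [mem_Icc] at hi
      rw [mem_range]
      omega
  rw [sum_congr rfl h, sum_const, card_range, smul_eq_mul]

/-- a set with more than twice the independence number has a vertex of large degree -/
theorem super (m : ℕ) (hm : 1 ≤ m) (U : Finset (Finset ℕ)) (hU : ∀ s ∈ U, s ⊆ range (2 * (2 * m)))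
    (hc : 2 * 8 ^ m < U.card) [∀ v, DecidablePred (fun w => Far (2 * m) v w)] :
    ∃ v ∈ U, U.card ≤ (4 * m * 4 ^ m) * (U.filter (fun w => Far (2 * m) v w)).card := by
  classical
  by_contra hcon
  push Not at hcon
  -- the smaller side of every cell
  set sm : ((_ : ℕ) × (Finset ℕ × Bool)) → Finset (Finset ℕ) := fun κ =>
    if (cls U (2 * m) κ true).card ≤ (cls U (2 * m) κ false).card then cls U (2 * m) κ true
    else cls U (2 * m) κ false with hsm
  set Z := (keys m).biUnion sm with hZ
  have hsmall : ∀ κ, (4 * m * 4 ^ m) * (sm κ).card ≤ U.card := by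
    intro κ
    have aux : ∀ b, (cls U (2 * m) κ b).card ≤ (cls U (2 * m) κ (!b)).card →
        (4 * m * 4 ^ m) * (cls U (2 * m) κ b).card ≤ U.card := by
      intro b hb
      rcases (cls U (2 * m) κ b).eq_empty_or_nonempty with h | ⟨v, hv⟩
      · rw [h]; simp
      · have h1 : cls U (2 * m) κ (!b) ⊆ U.filter (fun w => Far (2 * m) v w) := by
          intro w hw
          rw [mem_filter]
          exact ⟨(mem_filter.1 hw).1, far_of_cls hv hw⟩
        have h2 := hcon v (mem_filter.1 hv).1
        have h3 := card_le_card h1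
        calc (4 * m * 4 ^ m) * (cls U (2 * m) κ b).card
            ≤ (4 * m * 4 ^ m) * (U.filter (fun w => Far (2 * m) v w)).card :=
              Nat.mul_le_mul_left _ (hb.trans h3)
          _ ≤ U.card := h2.le
    simp only [hsm]
    split_ifs with h
    · exact aux true h
    · exact aux false (by simpa using (not_le.1 h).le)
  have hZcard : 2 * Z.card ≤ U.card := by
    have h1 : Z.card ≤ ∑ κ ∈ keys m, (sm κ).card := card_biUnion_le
    have h2 : (4 * m * 4 ^ m) * Z.card ≤ (2 * m * 4 ^ m) * U.card := by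
      calc (4 * m * 4 ^ m) * Z.card ≤ (4 * m * 4 ^ m) * ∑ κ ∈ keys m, (sm κ).card :=
            Nat.mul_le_mul_left _ h1
        _ = ∑ κ ∈ keys m, (4 * m * 4 ^ m) * (sm κ).card := mul_sum _ _ _
        _ ≤ ∑ _κ ∈ keys m, U.card := sum_le_sum fun κ _ => hsmall κ
        _ = (2 * m * 4 ^ m) * U.card := by rw [sum_const, card_keys, smul_eq_mul]
    have h3 : (2 * m * 4 ^ m) * (2 * Z.card) ≤ (2 * m * 4 ^ m) * U.card := by
      refine le_trans (le_of_eq ?_) h2
      ring
    exact Nat.le_of_mul_le_mul_left h3 (by positivity)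
  have hind : (U \ Z).card ≤ 8 ^ m := by
    apply card_bound
    · intro s hs
      exact hU s (mem_sdiff.1 hs).1
    · intro s hs t ht hfar
      rw [mem_sdiff] at hs ht
      obtain ⟨i, ⟨h1, h2⟩, h3, h4⟩ := hfar
      have hi : i < 2 * m := by
        by_contra hcon2
        apply h1
        have e1 : i + 2 * m ∉ s := fun h => by
          have := hU s hs.1 h
          rw [mem_range] at this
          omega
        have e2 : i + 2 * m ∉ t := fun h => by
          have := hU t ht.1 h
          rw [mem_range] at this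
          omega
        tauto
      set κ : (_ : ℕ) × (Finset ℕ × Bool) := ⟨i, outw (2 * m) i s, par (2 * m) i s⟩ with hκ
      have hκk : κ ∈ keys m := by
        rw [keys, mem_sigma]
        refine ⟨mem_range.2 hi, ?_⟩
        rw [mem_product, mem_powerset]
        refine ⟨?_, mem_univ _⟩
        intro k hk
        simp only [hκ, outw, mem_sdiff] at hk ⊢
        exact ⟨hU s hs.1 hk.1, hk.2⟩
      have hout : outw (2 * m) i t = outw (2 * m) i s := by
        ext k
        simp only [outw, mem_sdiff, mem_Icc]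
        rcases lt_or_ge k i with h | h
        · have := h4 k h
          tauto
        · rcases le_or_gt k (i + 2 * m) with h' | h'
          · constructor <;> rintro ⟨_, h5⟩ <;> exact absurd ⟨h, h'⟩ h5
          · have := h2 k h'
            tauto
      have hpar : par (2 * m) i t = par (2 * m) i s := by
        simp only [par]
        by_cases a1 : i ∈ s <;> by_cases a2 : i ∈ t <;> by_cases a3 : i + 2 * m ∈ s <;>
          by_cases a4 : i + 2 * m ∈ t <;> simp_all
      have hs' : s ∈ cls U (2 * m) κ (side i s) := by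
        rw [cls, mem_filter]
        exact ⟨hs.1, ⟨rfl, rfl⟩, rfl⟩
      have hside : side i t = !(side i s) := by
        simp only [side]
        by_cases a1 : i ∈ s <;> by_cases a2 : i ∈ t <;> simp_all
      have ht' : t ∈ cls U (2 * m) κ (!(side i s)) := by
        rw [cls, mem_filter]
        exact ⟨ht.1, ⟨hout, hpar⟩, hside⟩
      -- one of the two sides is in `Z`
      have hor : sm κ = cls U (2 * m) κ true ∨ sm κ = cls U (2 * m) κ false := by
        simp only [hsm]
        split_ifs
        · exact Or.inl rfl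
        · exact Or.inr rfl
      have hsub : sm κ ⊆ Z := subset_biUnion_of_mem sm hκk
      cases hb : side i s
      · rw [hb] at hs' ht'
        rcases hor with h | h
        · exact ht.2 (hsub (by rw [h]; exact ht'))
        · exact hs.2 (hsub (by rw [h]; exact hs'))
      · rw [hb] at hs' ht'
        rcases hor with h | h
        · exact hs.2 (hsub (by rw [h]; exact hs'))
        · exact ht.2 (hsub (by rw [h]; exact ht'))
  have h5 : U.card ≤ (U \ Z).card + Z.card := by
    have := le_card_sdiff Z U
    omega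
  omega

end Pool.Agent.KS6_40.SA
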