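import Pool.Agent.KS6_40.SA.Count
import Pool.Agent.KS6_40.SA.Super

set_option autoImplicit false

/-! # The exponent `3/2` for planar semi-algebraic Ramsey numbers `R_f(3, n)` -/

open Finset

namespace Pool.Agent.KS6_40.SA

open Pool.Agent.Results.MP_8f4311_co.PlanarRamsey

theorem binom2 (y : ℕ) : ∀ n : ℕ, y ^ (n + 1) + (n + 1) * y ^ n ≤ (y + 1) ^ (n + 1) := by
  intro n
  induction n with
  | zero => simp
  | succ n ih =>
    calc y ^ (n + 1 + 1) + (n + 1 + 1) * y ^ (n + 1)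
        ≤ (y + 1) * (y ^ (n + 1) + (n + 1) * y ^ n) := by
          have : 0 ≤ (n + 1) * y ^ n := Nat.zero_le _
          ring_nf
          ring_nf at this
          nlinarith
      _ ≤ (y + 1) * (y + 1) ^ (n + 1) := Nat.mul_le_mul_left _ ih
      _ = (y + 1) ^ (n + 1 + 1) := by ring

theorem half_pow (x : ℕ) (hx : 1 ≤ x) : 2 * (x - 1) ^ x ≤ x ^ x := by
  obtain ⟨y, rfl⟩ : ∃ y, x = y + 1 := ⟨x - 1, by omega⟩
  rw [Nat.add_sub_cancel]
  have h := binom2 y y
  have h1 : y ^ (y + 1) ≤ (y + 1) * y ^ y := by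
    rw [pow_succ]
    nlinarith [Nat.zero_le (y ^ y)]
  linarith

/-- the number of independent sets -/
theorem card_Ind_le (m M : ℕ) (hm : 1 ≤ m) (hM : 1 ≤ M) (hMR : M ≤ 2 * 8 ^ m) :
    ((Ind (Far (2 * m)) (range (2 * (2 * m))).powerset M).card : ℝ) ≤
      2 ^ (5 * (m * (m * (4 * m * 4 ^ m)))) *
        (Real.exp 1 ^ M * ((2 * 8 ^ m : ℕ) / (M : ℝ)) ^ M) := by
  classical
  set x := 4 * m * 4 ^ m with hx
  set k := m * x with hk
  set R := 2 * 8 ^ m with hR
  have hx1 : 1 ≤ x := by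
    rw [hx]
    have : 1 ≤ 4 ^ m := Nat.one_le_pow _ _ (by norm_num)
    nlinarith
  have hk1 : 1 ≤ k := by
    rw [hk]
    nlinarith
  have hW : ((range (2 * (2 * m))).powerset).card = 16 ^ m := by
    rw [card_powerset, card_range, ← mul_assoc, pow_mul]
    norm_num
  have hcond : ((range (2 * (2 * m))).powerset).card * (x - 1) ^ k ≤ R * x ^ k := by
    rw [hW, hR]
    have h1 := half_pow x hx1
    have h2 : 2 ^ m * (x - 1) ^ k ≤ x ^ k := by
      calc 2 ^ m * (x - 1) ^ k = (2 * (x - 1) ^ x) ^ m := by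
            rw [mul_pow, ← pow_mul, hk, mul_comm m x]
        _ ≤ (x ^ x) ^ m := Nat.pow_le_pow_left h1 m
        _ = x ^ k := by rw [← pow_mul, hk, mul_comm m x]
    have h3 : (16 : ℕ) ^ m = 8 ^ m * 2 ^ m := by rw [← mul_pow]; norm_num
    calc 16 ^ m * (x - 1) ^ k = 8 ^ m * (2 ^ m * (x - 1) ^ k) := by rw [h3]; ring
      _ ≤ 8 ^ m * x ^ k := Nat.mul_le_mul_left _ h2
      _ ≤ 2 * 8 ^ m * x ^ k := by nlinarith [Nat.zero_le (8 ^ m * x ^ k)]
  have hcount := count (Far (2 * m)) (fun v hv => by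
      obtain ⟨i, h, _⟩ := hv
      exact h.1 Iff.rfl) ((range (2 * (2 * m))).powerset) R x hx1
    (fun U hU hc => super m hm U (fun s hs => mem_powerset.1 (hU hs)) hc) (16 ^ m)
    _ hW (Subset.refl _) k M hcond
  have hMpos : (0 : ℝ) < M := by exact_mod_cast hM
  have hq : (1 : ℝ) ≤ (R : ℝ) / M := by
    rw [le_div_iff₀ hMpos, one_mul]
    exact_mod_cast hMR
  have hterm : ∀ t ∈ range (k + 1), (((16 ^ m).choose t * R.choose (M - t) : ℕ) : ℝ) ≤
      (2 : ℝ) ^ (4 * (m * k)) * (Real.exp 1 ^ M * ((R : ℝ) / M) ^ M) := by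
    intro t ht
    rw [mem_range] at ht
    push_cast
    have h1 : (((16 ^ m).choose t : ℕ) : ℝ) ≤ (2 : ℝ) ^ (4 * (m * k)) := by
      have h2 : (16 ^ m).choose t ≤ 2 ^ (4 * (m * k)) := by
        calc (16 ^ m).choose t ≤ (16 ^ m) ^ t := Nat.choose_le_pow _ _
          _ ≤ (16 ^ m) ^ k := Nat.pow_le_pow_right (by positivity) (by omega)
          _ = 2 ^ (4 * (m * k)) := by
              rw [pow_mul 2 4, ← pow_mul]
              norm_num
      exact_mod_cast h2
    have h3 : ((R.choose (M - t) : ℕ) : ℝ) ≤ Real.exp 1 ^ M * ((R : ℝ) / M) ^ M := by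
      have h4 : ((R.choose (M - t) : ℕ) : ℝ) ≤ (R : ℝ) ^ (M - t) / ((M - t).factorial : ℝ) :=
        Nat.choose_le_pow_div _ _
      have h5 : (M : ℝ) ^ (M - t) / ((M - t).factorial : ℝ) ≤ Real.exp M :=
        Real.pow_div_factorial_le_exp _ hMpos.le _
      have h6 : (R : ℝ) ^ (M - t) / ((M - t).factorial : ℝ) =
          ((R : ℝ) / M) ^ (M - t) * ((M : ℝ) ^ (M - t) / ((M - t).factorial : ℝ)) := by
        rw [div_pow]
        field_simp
      rw [h6] at h4
      have h7 : ((R : ℝ) / M) ^ (M - t) ≤ ((R : ℝ) / M) ^ M :=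
        pow_le_pow_right₀ hq (Nat.sub_le _ _)
      have h8 : Real.exp M = Real.exp 1 ^ M := by
        rw [← Real.exp_nat_mul, mul_one]
      rw [h8] at h5
      calc ((R.choose (M - t) : ℕ) : ℝ) ≤ _ := h4
        _ ≤ ((R : ℝ) / M) ^ M * Real.exp 1 ^ M := by
            apply mul_le_mul h7 h5 (by positivity) (by positivity)
        _ = _ := mul_comm _ _
    exact mul_le_mul h1 h3 (by positivity) (by positivity)
  have h9 : ((Ind (Far (2 * m)) (range (2 * (2 * m))).powerset M).card : ℝ) ≤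
      ∑ t ∈ range (k + 1), (((16 ^ m).choose t * R.choose (M - t) : ℕ) : ℝ) := by
    rw [← Nat.cast_sum]
    exact_mod_cast hcount
  have h10 := h9.trans (sum_le_sum hterm)
  rw [sum_const, card_range, nsmul_eq_mul] at h10
  refine h10.trans ?_
  have h11 : ((k + 1 : ℕ) : ℝ) ≤ (2 : ℝ) ^ (m * k) := by
    have h12 : k + 1 ≤ 2 ^ k := Nat.lt_two_pow_self
    have h13 : 2 ^ k ≤ 2 ^ (m * k) := Nat.pow_le_pow_right (by norm_num) (by nlinarith)
    exact_mod_cast h12.trans h13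
  rw [← mul_assoc]
  apply mul_le_mul_of_nonneg_right _ (by positivity)
  calc ((k + 1 : ℕ) : ℝ) * 2 ^ (4 * (m * k)) ≤ 2 ^ (m * k) * 2 ^ (4 * (m * k)) := by
        apply mul_le_mul_of_nonneg_right h11 (by positivity)
    _ = 2 ^ (5 * (m * k)) := by
        rw [← pow_add]
        congr 1
        ring

/-- the size of the independent sets -/
def MM (m : ℕ) : ℕ := 40 * m ^ 3 * 4 ^ m

theorem card_Ind_le' (m : ℕ) (hm : 1 ≤ m) (hMR : MM m ≤ 2 * 8 ^ m) :
    ((Ind (Far (2 * m)) (range (2 * (2 * m))).powerset (MM m)).card : ℝ) ≤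
      (4 * ((2 * 8 ^ m : ℕ) / (MM m : ℝ))) ^ (MM m) := by
  have hM : 1 ≤ MM m := by
    have : 0 < MM m := by unfold MM; positivity
    omega
  refine (card_Ind_le m (MM m) hm hM hMR).trans ?_
  rw [mul_pow, ← mul_assoc]
  apply mul_le_mul_of_nonneg_right _ (by positivity)
  have h1 : MM m = 2 * (5 * (m * (m * (4 * m * 4 ^ m)))) := by
    unfold MM; ring
  set z := 5 * (m * (m * (4 * m * 4 ^ m))) with hz
  have e1 : Real.exp 1 ^ (2 * z) = (Real.exp 1 ^ 2) ^ z := pow_mul _ _ _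
  have e2 : (4 : ℝ) ^ (2 * z) = (4 ^ 2) ^ z := pow_mul _ _ _
  rw [h1, e1, e2, ← mul_pow]
  apply pow_le_pow_left₀ (by positivity)
  have he := Real.exp_one_lt_d9
  have he0 := Real.exp_pos 1
  nlinarith

/-- a set of points without large independent set -/
theorem exists_set (m : ℕ) (hm : 1 ≤ m) (hMR : MM m ≤ 2 * 8 ^ m) :
    ∃ Z ⊆ (range (2 * (2 * m))).powerset, (2 : ℝ) ^ m * MM m / 32 ≤ Z.card ∧
      ∀ S ⊆ Z, (∀ a ∈ S, ∀ b ∈ S, ¬ Far (2 * m) a b) → S.card < MM m := by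
  classical
  set M := MM m with hMdef
  set R := 2 * 8 ^ m with hR
  have hM : 1 ≤ M := by
    have : 0 < MM m := by unfold MM; positivity
    omega
  have hMpos : (0 : ℝ) < M := by exact_mod_cast hM
  set r := 8 * R / M + 1 with hr
  have hr1 : 1 ≤ r := by
    rw [hr]
    exact Nat.le_add_left 1 _
  have hrlow : 8 * ((R : ℝ) / M) ≤ r := by
    have h1 : 8 * R < M * r := by
      rw [hr]
      have := Nat.lt_mul_div_succ (8 * R) (show 0 < M by omega)
      exact this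
    rw [mul_div_assoc', div_le_iff₀ hMpos]
    have h2 : ((8 * R : ℕ) : ℝ) ≤ ((M * r : ℕ) : ℝ) := by exact_mod_cast h1.le
    push_cast at h2
    linarith
  have hrup : (r : ℝ) ≤ 16 * ((R : ℝ) / M) := by
    have h1 : ((8 * R / M : ℕ) : ℝ) ≤ ((8 * R : ℕ) : ℝ) / M := Nat.cast_div_le
    have h2 : (1 : ℝ) ≤ (R : ℝ) / M := by
      rw [le_div_iff₀ hMpos, one_mul]
      exact_mod_cast hMR
    have h3 : ((8 * R : ℕ) : ℝ) / M = 8 * ((R : ℝ) / M) := by
      push_cast
      ring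
    rw [h3] at h1
    rw [hr]
    push_cast
    linarith
  have hr2 : r < 2 ^ M := by
    have h1 : r ≤ 8 * R + 1 := by
      rw [hr]
      have := Nat.div_le_self (8 * R) M
      omega
    have h2 : 8 * R + 1 < 2 ^ (3 * m + 5) := by
      have h3 : (2 : ℕ) ^ (3 * m + 5) = 32 * 8 ^ m := by
        rw [pow_add, pow_mul]
        norm_num
        ring
      rw [h3, hR]
      have : 1 ≤ 8 ^ m := Nat.one_le_pow _ _ (by norm_num)
      omega
    have h4 : 3 * m + 5 ≤ M := by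
      rw [hMdef, MM]
      have h5 : 1 ≤ 4 ^ m := Nat.one_le_pow _ _ (by norm_num)
      have h6 : m ≤ m ^ 3 := Nat.le_self_pow (by norm_num) m
      nlinarith
    have h7 : (2 : ℕ) ^ (3 * m + 5) ≤ 2 ^ M := Nat.pow_le_pow_right (by norm_num) h4
    omega
  set F := Ind (Far (2 * m)) (range (2 * (2 * m))).powerset M with hF
  have hcard : F.card * r < r ^ M := by
    rcases Nat.eq_zero_or_pos F.card with h0 | h0
    · rw [h0, zero_mul]
      positivity
    · have h1 := card_Ind_le' m hm hMR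
      rw [← hMdef, ← hR, ← hF] at h1
      have h2 : ((F.card * 2 ^ M : ℕ) : ℝ) ≤ ((r ^ M : ℕ) : ℝ) := by
        push_cast
        calc (F.card : ℝ) * 2 ^ M ≤ (4 * ((R : ℝ) / M)) ^ M * 2 ^ M := by
              apply mul_le_mul_of_nonneg_right h1 (by positivity)
          _ = (8 * ((R : ℝ) / M)) ^ M := by
              rw [← mul_pow]
              congr 1
              ring
          _ ≤ (r : ℝ) ^ M := pow_le_pow_left₀ (by positivity) hrlow _
      have h3 : F.card * 2 ^ M ≤ r ^ M := by exact_mod_cast h2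
      calc F.card * r < F.card * 2 ^ M := Nat.mul_lt_mul_of_pos_left hr2 h0
        _ ≤ r ^ M := h3
  obtain ⟨Z, hZ1, hZ2, hZ3⟩ := exists_part ((range (2 * (2 * m))).powerset) F M r hM hr1
    (fun I hI => ⟨(mem_Ind.1 hI).1, (mem_Ind.1 hI).2.1⟩) hcard
  refine ⟨Z, hZ1, ?_, ?_⟩
  · have hW : ((range (2 * (2 * m))).powerset).card = 16 ^ m := by
      rw [card_powerset, card_range, ← mul_assoc, pow_mul]
      norm_num
    rw [hW] at hZ2
    have h1 : (16 : ℝ) ^ m ≤ r * Z.card := by exact_mod_cast hZ2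
    have h2 : (16 : ℝ) ^ m ≤ 16 * ((R : ℝ) / M) * Z.card :=
      h1.trans (mul_le_mul_of_nonneg_right hrup (Nat.cast_nonneg _))
    have h3 : (R : ℝ) = 2 * 8 ^ m := by
      rw [hR]; push_cast; ring
    have h4 : (16 : ℝ) ^ m = 2 ^ m * 8 ^ m := by
      rw [← mul_pow]; norm_num
    rw [h3, h4] at h2
    have h5 : (0 : ℝ) < 8 ^ m := by positivity
    have h6 : 16 * (2 * (8 : ℝ) ^ m / M) * Z.card = (32 * Z.card / M) * 8 ^ m := by
      field_simp
      ring
    rw [h6] at h2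
    have h7 := le_of_mul_le_mul_right h2 h5
    rw [le_div_iff₀ hMpos] at h7
    linarith
  · intro S hS hind
    by_contra hcon
    push Not at hcon
    obtain ⟨I, hIS, hIM⟩ := exists_subset_card_eq hcon
    exact hZ3 I (mem_Ind.2 ⟨hIS.trans (hS.trans hZ1), hIM,
      fun a ha b hb => hind a (hIS ha) b (hIS hb)⟩) (hIS.trans hS)

/-- the points of a set of strings -/
theorem not_good_of_set (D : ℕ) (Z : Finset (Finset ℕ)) (n : ℕ)
    (h : ∀ S ⊆ Z, (∀ a ∈ S, ∀ b ∈ S, ¬ Far D a b) → S.card < n) : ¬ Good ff 3 n Z.card := by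
  classical
  let e : Fin Z.card ≃ {s // s ∈ Z} := (Finset.equivFinOfCardEq rfl).symm
  let v : Fin Z.card → ℝ × ℝ := fun i => pt D (e i).1
  have hinj : Function.Injective v := by
    intro i j hij
    exact e.injective (Subtype.ext (pt_injective hij))
  have hadj : ∀ i j, (semiGraph ff v).Adj i j ↔ Far D (e i).1 (e j).1 := by
    intro i j
    have hfar : Far D (e i).1 (e j).1 → i ≠ j := by
      rintro ⟨c, hc, _⟩ rfl
      exact hc.1 Iff.rfl
    constructor
    · rintro (⟨h1, h2⟩ | ⟨h1, h2⟩)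
      · exact (edge_iff (fun h => h1.ne (e.injective (Subtype.ext h)))).mp h2
      · exact ((edge_iff (fun h => h1.ne (e.injective (Subtype.ext h)))).mp h2).symm
    · intro h
      rcases lt_or_gt_of_ne (hfar h) with h1 | h1
      · exact Or.inl ⟨h1, (edge_iff (fun h => h1.ne (e.injective (Subtype.ext h)))).mpr h⟩
      · exact Or.inr ⟨h1, (edge_iff (fun h => h1.ne (e.injective (Subtype.ext h)))).mpr h.symm⟩
  intro hgood
  rcases hgood v hinj with ⟨t, ht⟩ | ⟨t, ht⟩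
  · obtain ⟨a, b, c, hab, hac, hbc, _⟩ := SimpleGraph.is3Clique_iff.mp ht
    rw [hadj] at hab hac hbc
    exact no_triangle _ _ _ _ hab hbc hac
  · set S : Finset (Finset ℕ) := t.image (fun i => (e i).1) with hS
    have hinj2 : Function.Injective (fun i => (e i).1) := fun i j hij =>
      e.injective (Subtype.ext hij)
    have hSc : S.card = n := by
      rw [hS, Finset.card_image_of_injective _ hinj2]; exact ht.2
    have h1 : S.card < n := by
      apply h
      · intro s hs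
        rw [hS, Finset.mem_image] at hs
        obtain ⟨i, _, rfl⟩ := hs
        exact (e i).2
      · intro s hs s' hs' hfar
        rw [hS, Finset.mem_image] at hs hs'
        obtain ⟨i, hi, rfl⟩ := hs
        obtain ⟨j, hj, rfl⟩ := hs'
        have h2 := (hadj i j).mpr hfar
        exact ht.1 hi hj h2.ne h2
    omega

theorem cube_le (m : ℕ) (hm : 17 ≤ m) : 20 * m ^ 3 ≤ 2 ^ m := by
  induction m, hm using Nat.le_induction with
  | base => norm_num
  | succ m hm ih =>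
    have h1 : (m + 1) ^ 3 ≤ 2 * m ^ 3 := by
      have : 17 * m ^ 2 ≤ m ^ 3 := by nlinarith [sq_nonneg m]
      nlinarith
    rw [pow_succ 2 m]
    linarith

/-- the main bound -/
theorem main_bound (n : ℕ) (hn : MM 17 ≤ n) :
    (1 / 40000 : ℝ) * ((n : ℝ) ^ (3 / 2 : ℝ) / (Real.log n) ^ (3 / 2 : ℝ)) ≤
      (semiRamsey ff 3 n : ℝ) := by
  have hmono : ∀ m, m ≤ MM m := by
    intro m
    rcases Nat.eq_zero_or_pos m with rfl | hpos
    · exact Nat.zero_le _
    · unfold MM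
      have h5 : 1 ≤ 4 ^ m := Nat.one_le_pow _ _ (by norm_num)
      have h6 : m ≤ m ^ 3 := Nat.le_self_pow (by norm_num) m
      nlinarith
  obtain ⟨m, hm17, hm1, hm2⟩ : ∃ m, 17 ≤ m ∧ MM m ≤ n ∧ n < MM (m + 1) := by
    set m := Nat.findGreatest (fun m => MM m ≤ n) n with hmdef
    have h1 : 17 ≤ n := (hmono 17).trans hn
    have h2 : 17 ≤ m := Nat.le_findGreatest h1 hn
    have h3 : MM m ≤ n := Nat.findGreatest_spec (P := fun m => MM m ≤ n) h1 hn
    refine ⟨m, h2, h3, ?_⟩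
    by_contra hcon
    push Not at hcon
    have h4 : m + 1 ≤ n := (hmono (m + 1)).trans hcon
    have h5 := Nat.le_findGreatest (P := fun m => MM m ≤ n) h4 hcon
    omega
  have hMR : MM m ≤ 2 * 8 ^ m := by
    have h1 := cube_le m hm17
    have h2 : (8 : ℕ) ^ m = 2 ^ m * 4 ^ m := by rw [← mul_pow]; norm_num
    rw [h2, MM]
    nlinarith [Nat.zero_le (4 ^ m)]
  obtain ⟨Z, _, hZ2, hZ3⟩ := exists_set m (by omega) hMR
  have h1 := lt_semiRamsey (not_good_of_set (2 * m) Z n (fun S hS hind =>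
    lt_of_lt_of_le (hZ3 S hS hind) hm1))
  have h2 : (Z.card : ℝ) ≤ (semiRamsey ff 3 n : ℝ) := by exact_mod_cast h1.le
  refine le_trans ?_ (hZ2.trans h2)
  have hmr : (17 : ℝ) ≤ m := by exact_mod_cast hm17
  have hnpos : (0 : ℝ) < n := by
    have : 0 < n := by
      have := hmono 17
      omega
    exact_mod_cast this
  -- `m ≤ log n`
  have hlog : (m : ℝ) ≤ Real.log n := by
    have h3 : (4 : ℝ) ^ m ≤ n := by
      have h4 : 4 ^ m ≤ MM m := by
        unfold MM
        have : 1 ≤ 40 * m ^ 3 := by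
          have : 1 ≤ m ^ 3 := Nat.one_le_pow _ _ (by omega)
          omega
        nlinarith [Nat.zero_le (4 ^ m)]
      exact_mod_cast h4.trans hm1
    have h5 := Real.log_le_log (by positivity) h3
    rw [Real.log_pow] at h5
    have h6 : (1 : ℝ) ≤ Real.log 4 := by
      have h7 : Real.log 4 = 2 * Real.log 2 := by
        rw [show (4 : ℝ) = 2 ^ 2 by norm_num, Real.log_pow]
        norm_num
      rw [h7]
      have := Real.log_two_gt_d9
      linarith
    nlinarith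
  have hL : 0 < Real.log n := by linarith
  -- `n ≤ 32 M`
  have hn32 : (n : ℝ) ≤ 32 * MM m := by
    have h3 : MM (m + 1) ≤ 32 * MM m := by
      unfold MM
      have h4 : (m + 1) ^ 3 ≤ 8 * m ^ 3 := by
        calc (m + 1) ^ 3 ≤ (2 * m) ^ 3 := Nat.pow_le_pow_left (by omega) 3
          _ = 8 * m ^ 3 := by ring
      rw [pow_succ 4 m]
      nlinarith [Nat.zero_le (4 ^ m), Nat.mul_le_mul_right (4 ^ m) h4]
    exact_mod_cast (hm2.le.trans h3)
  have hMM : (MM m : ℝ) = 40 * (m : ℝ) ^ 3 * 4 ^ m := by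
    unfold MM; push_cast; ring
  have h44 : (4 : ℝ) ^ m = (2 ^ m) ^ 2 := by
    rw [← pow_mul, mul_comm m 2, pow_mul]; norm_num
  have hm3 : (m : ℝ) ^ 3 ≤ Real.log n ^ 3 := pow_le_pow_left₀ (by positivity) hlog 3
  -- compare squares
  have hsq : ((n : ℝ) ^ (3 / 2 : ℝ)) ^ 2 = (n : ℝ) ^ 3 := by
    rw [← Real.rpow_natCast, ← Real.rpow_mul hnpos.le, ← Real.rpow_natCast]
    norm_num
  have hsqL : ((Real.log n) ^ (3 / 2 : ℝ)) ^ 2 = (Real.log n) ^ 3 := by
    rw [← Real.rpow_natCast, ← Real.rpow_mul hL.le, ← Real.rpow_natCast]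
    norm_num
  have hmain : (n : ℝ) ^ (3 / 2 : ℝ) ≤ 1145 * (Real.log n) ^ (3 / 2 : ℝ) * (2 ^ m * MM m) := by
    rw [← pow_le_pow_iff_left₀ (Real.rpow_nonneg hnpos.le _) (by positivity) (two_ne_zero)]
    rw [hsq, mul_pow, mul_pow, hsqL]
    have hMpos : (0 : ℝ) ≤ MM m := Nat.cast_nonneg _
    have e1 : (n : ℝ) ^ 2 ≤ (32 * MM m) ^ 2 := pow_le_pow_left₀ hnpos.le hn32 2
    have e2 : (n : ℝ) ≤ 1280 * Real.log n ^ 3 * (2 ^ m) ^ 2 := by
      calc (n : ℝ) ≤ 32 * MM m := hn32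
        _ = 1280 * ((m : ℝ) ^ 3 * (2 ^ m) ^ 2) := by rw [hMM, h44]; ring
        _ ≤ 1280 * (Real.log n ^ 3 * (2 ^ m) ^ 2) := by gcongr
        _ = _ := by ring
    calc (n : ℝ) ^ 3 = (n : ℝ) ^ 2 * n := by ring
      _ ≤ (32 * MM m) ^ 2 * (1280 * Real.log n ^ 3 * (2 ^ m) ^ 2) :=
          mul_le_mul e1 e2 hnpos.le (by positivity)
      _ = 1310720 * (Real.log n ^ 3 * (2 ^ m * MM m) ^ 2) := by ring
      _ ≤ 1145 ^ 2 * (Real.log n ^ 3 * (2 ^ m * MM m) ^ 2) := by
          apply mul_le_mul_of_nonneg_right (by norm_num) (by positivity)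
      _ = _ := by ring
  have hLp : 0 < (Real.log n) ^ (3 / 2 : ℝ) := Real.rpow_pos_of_pos hL _
  have h8 : (n : ℝ) ^ (3 / 2 : ℝ) / (Real.log n) ^ (3 / 2 : ℝ) ≤ 1145 * (2 ^ m * MM m) := by
    rw [div_le_iff₀ hLp]
    linarith
  have h9 : (0 : ℝ) ≤ 2 ^ m * MM m := by positivity
  calc (1 / 40000 : ℝ) * ((n : ℝ) ^ (3 / 2 : ℝ) / (Real.log n) ^ (3 / 2 : ℝ))
      ≤ 1 / 40000 * (1145 * (2 ^ m * MM m)) := by
        apply mul_le_mul_of_nonneg_left h8 (by norm_num)
    _ ≤ 2 ^ m * MM m / 32 := by linarith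

end Pool.Agent.KS6_40.SA
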